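import Pool.Agent.Helper70.ML.St

/-!
# Project ML (MP_a2f62e_al), module REL: canonical lifts satisfy Carmichael's relations
-/

set_option autoImplicit false

namespace Pool.Agent.Helper92.ML

open Pool.Agent.Helper70.ML Pool.Agent.Helper75.MX
open Equiv

/-! ## Transpositions -/

section perm

variable {X : Type} [DecidableEq X]

theorem conj_cyc (s : Perm X) (a b p : X) :
    s * (swap a b * swap b p) * s⁻¹ = swap (s a) (s b) * swap (s b) (s p) := by
  rw [Equiv.swap_apply_apply, Equiv.swap_apply_apply]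
  group

theorem conj_swap {a b q : X} (h1 : q ≠ a) (h2 : q ≠ b) :
    swap a b * swap b q * swap a b = swap a q := by
  have h := Equiv.swap_apply_apply (swap a b) b q
  rw [swap_apply_right, swap_apply_of_ne_of_ne h1 h2, swap_inv] at h
  exact h.symm

theorem inv_cyc {a b q : X} (h1 : q ≠ a) (h2 : q ≠ b) :
    swap b a * swap a q = (swap a b * swap b q)⁻¹ := by
  rw [← conj_swap h1 h2, mul_inv_rev, swap_inv, swap_inv, swap_comm b a]
  simp only [← mul_assoc, swap_mul_self, one_mul]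

theorem prod_cyc {a b p q : X} (hp1 : p ≠ a) (hp2 : p ≠ b) (hq1 : q ≠ a) (hab : a ≠ b)
    (hpq : p ≠ q) : (swap a b * swap b p * (swap a b * swap b q)) ^ 2 = 1 := by
  have h1 : swap a b * swap b p * (swap a b * swap b q) = swap a p * swap b q := by
    rw [← conj_swap hp1 hp2]; simp only [mul_assoc]
  have h2 : swap a p * swap b q * (swap a p)⁻¹ = swap b q := by
    rw [← Equiv.swap_apply_apply, swap_apply_of_ne_of_ne hab.symm hp2.symm,
      swap_apply_of_ne_of_ne hq1 hpq.symm]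
  rw [h1, pow_two]
  rw [swap_inv] at h2
  calc swap a p * swap b q * (swap a p * swap b q)
      = (swap a p * swap b q * swap a p) * swap b q := by simp only [mul_assoc]
    _ = swap b q * swap b q := by rw [h2]
    _ = 1 := swap_mul_self _ _

theorem cyc3 [Fintype X] {a b p : X} (hab : a ≠ b) (hp1 : p ≠ a) (hp2 : p ≠ b) :
    (swap a b * swap b p).IsThreeCycle := by
  rw [swap_comm a b]
  exact Equiv.Perm.isThreeCycle_swap_mul_swap_same hab.symm hp2.symm hp1.symm

end perm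

section grp

variable {N : ℕ} {G : Type} [Group G] [Finite G] (ψ : G →* alternatingGroup (Fin N))

/-- an element over the centraliser of `ψ y` commutes with `y` -/
theorem comm_of (hCEN : StCEN) (hs : Function.Surjective ψ) (hk : ψ.ker ≤ Subgroup.center G)
    (hD : ∀ x y : G, ((ψ x : alternatingGroup (Fin N)) : Perm (Fin N)).IsThreeCycle →
      ((ψ y : alternatingGroup (Fin N)) : Perm (Fin N)).IsThreeCycle →
      ((ψ x : alternatingGroup (Fin N)) : Perm (Fin N)).Disjoint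
        (ψ y : alternatingGroup (Fin N)) → x * y = y * x)
    (y g : G) (h3 : ((ψ y : alternatingGroup (Fin N)) : Perm (Fin N)).IsThreeCycle)
    (hg : ψ g * ψ y = ψ y * ψ g) : g * y = y * g := by
  have h1 := hCEN N (ψ y) (ψ g) h3 hg
  set C : Subgroup G := Subgroup.centralizer {y} with hC
  have h2 : Subgroup.closure ({ψ y} ∪ {d : alternatingGroup (Fin N) |
      (d : Perm (Fin N)).IsThreeCycle ∧ (d : Perm (Fin N)).Disjoint (ψ y)}) ≤ C.map ψ := by
    rw [Subgroup.closure_le]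
    rintro d (hd | ⟨hd3, hdd⟩)
    · rw [Set.mem_singleton_iff] at hd
      refine ⟨y, ?_, hd.symm⟩
      rw [hC]
      exact Subgroup.mem_centralizer_singleton_iff.2 rfl
    · obtain ⟨x, rfl⟩ := hs d
      refine ⟨x, ?_, rfl⟩
      rw [hC]
      exact Subgroup.mem_centralizer_singleton_iff.2 (hD x y hd3 h3 hdd)
  obtain ⟨g', hg', hgg⟩ := h2 h1
  have h4 : g' * y = y * g' := Subgroup.mem_centralizer_singleton_iff.1 hg'
  have h5 : g'⁻¹ * g ∈ ψ.ker := by
    rw [MonoidHom.mem_ker, map_mul, map_inv, hgg, inv_mul_cancel]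
  have h6 : y * (g'⁻¹ * g) = g'⁻¹ * g * y := Subgroup.mem_center_iff.1 (hk h5) y
  calc g * y = g' * (g'⁻¹ * g * y) := by group
    _ = g' * (y * (g'⁻¹ * g)) := by rw [h6]
    _ = g' * y * (g'⁻¹ * g) := by group
    _ = y * g' * (g'⁻¹ * g) := by rw [h4]
    _ = y * g := by group

/-- canonical lifts are unique -/
theorem uniq (hCEN : StCEN) (hLIF : StLIF) (hs : Function.Surjective ψ)
    (hk : ψ.ker ≤ Subgroup.center G) (ho : Odd (Nat.card ψ.ker))
    (hD : ∀ x y : G, ((ψ x : alternatingGroup (Fin N)) : Perm (Fin N)).IsThreeCycle →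
      ((ψ y : alternatingGroup (Fin N)) : Perm (Fin N)).IsThreeCycle →
      ((ψ x : alternatingGroup (Fin N)) : Perm (Fin N)).Disjoint
        (ψ y : alternatingGroup (Fin N)) → x * y = y * x)
    (y y' T T' : G) (h3 : ((ψ y : alternatingGroup (Fin N)) : Perm (Fin N)).IsThreeCycle)
    (hy : T * y * T⁻¹ = y⁻¹) (hy' : T' * y' * T'⁻¹ = y'⁻¹) (h : ψ y = ψ y') : y = y' := by
  have h4 := (hLIF G _ ψ hs hk ho).2.2.2
  have e1 : T' * T * y * (T' * T)⁻¹ = (T' * y * T'⁻¹)⁻¹ := by
    calc T' * T * y * (T' * T)⁻¹ = T' * (T * y * T⁻¹) * T'⁻¹ := by group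
      _ = (T' * y * T'⁻¹)⁻¹ := by rw [hy]; group
  have e2 : ψ (T' * T * y * (T' * T)⁻¹) = ψ y := by
    rw [e1, map_inv, map_mul, map_mul, h, ← map_mul, ← map_mul, hy', ← map_inv, inv_inv]
  have e3 : ψ (T' * T) * ψ y = ψ y * ψ (T' * T) := by
    rw [map_mul ψ (T' * T * y), map_inv, map_mul ψ (T' * T)] at e2
    rw [mul_inv_eq_iff_eq_mul] at e2
    exact e2
  have e4 := comm_of ψ hCEN hs hk hD y (T' * T) h3 e3
  have e5 : T' * y * T'⁻¹ = y⁻¹ := by
    have : T' * T * y * (T' * T)⁻¹ = y := by rw [e4]; group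
    rw [e1] at this
    rw [← this, inv_inv, this]
  have hz : y⁻¹ * y' ∈ ψ.ker := by
    rw [MonoidHom.mem_ker, map_mul, map_inv, h, inv_mul_cancel]
  set z := y⁻¹ * y' with hzdef
  have hzc : ∀ g : G, g * z = z * g := fun g => Subgroup.mem_center_iff.1 (hk hz) g
  have hy2 : y' = y * z := by rw [hzdef]; group
  have e6 : y⁻¹ * z = y⁻¹ * z⁻¹ := by
    calc y⁻¹ * z = (T' * y * T'⁻¹) * z := by rw [e5]
      _ = T' * y * (T'⁻¹ * z) := by group
      _ = T' * y * (z * T'⁻¹) := by rw [hzc]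
      _ = T' * (y * z) * T'⁻¹ := by group
      _ = y'⁻¹ := by rw [← hy2, hy']
      _ = z⁻¹ * y⁻¹ := by rw [hy2]; group
      _ = y⁻¹ * z⁻¹ := by
        have := hzc y
        rw [← mul_inv_rev, ← mul_inv_rev, this]
  have e7 : z = z⁻¹ := mul_left_cancel e6
  have e8 : z = 1 := by
    refine h4 z hz ?_
    nth_rw 1 [e7]
    exact inv_mul_cancel z
  rw [hy2, e8, mul_one]

end grp

theorem hREL (hCEN : StCEN) (hLIF : StLIF) : StREL := by
  intro n hn G _ _ ψ hs hk ho hD
  obtain ⟨l1, l2, l3, l4⟩ := hLIF G _ ψ hs hk ho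
  -- points
  have h01 : (0 : Fin (n + 2)) ≠ 1 := by simp
  have hi0 : ∀ i : Fin n, i.succ.succ ≠ (0 : Fin (n + 2)) := fun i => Fin.succ_ne_zero _
  have hi1 : ∀ i : Fin n, i.succ.succ ≠ (1 : Fin (n + 2)) := by
    intro i h
    have := congrArg Fin.val h
    simp at this
  have hij : ∀ i j : Fin n, i ≠ j → i.succ.succ ≠ j.succ.succ := by
    intro i j hij h
    exact hij (Fin.succ_injective _ (Fin.succ_injective _ h))
  -- the product of two transpositions in the alternating group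
  have hev : ∀ a b p q : Fin (n + 2), a ≠ b → p ≠ q →
      swap a b * swap p q ∈ alternatingGroup (Fin (n + 2)) := by
    intro a b p q hab hpq
    rw [Equiv.Perm.mem_alternatingGroup, map_mul, Equiv.Perm.sign_swap hab, Equiv.Perm.sign_swap hpq]
    rfl
  have hc3 : ∀ i : Fin n, (swap (0 : Fin (n + 2)) 1 * swap 1 i.succ.succ).IsThreeCycle :=
    fun i => cyc3 h01 (hi0 i) (hi1 i)
  -- existence
  have hE : ∀ i : Fin n, ∃ x T : G, ((ψ x : alternatingGroup (Fin (n + 2))) : Perm (Fin (n + 2))) =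
      swap 0 1 * swap 1 i.succ.succ ∧ T * T = 1 ∧ T * x * T⁻¹ = x⁻¹ := by
    intro i
    have hcard : 1 < (Finset.univ.erase i : Finset (Fin n)).card := by
      rw [Finset.card_erase_of_mem (Finset.mem_univ i), Finset.card_univ, Fintype.card_fin]
      omega
    obtain ⟨l, hl, m, hm, hlm⟩ := Finset.one_lt_card.1 hcard
    have hli : l ≠ i := (Finset.mem_erase.1 hl).1
    have hmi : m ≠ i := (Finset.mem_erase.1 hm).1
    have ht := hev 0 1 l.succ.succ m.succ.succ h01 (hij l m hlm)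
    set t : alternatingGroup (Fin (n + 2)) := ⟨_, ht⟩ with htdef
    have e0 : (swap (0 : Fin (n + 2)) 1 * swap l.succ.succ m.succ.succ) 0 = 1 := by
      rw [Equiv.Perm.mul_apply, swap_apply_of_ne_of_ne (hi0 l).symm (hi0 m).symm, swap_apply_left]
    have e1 : (swap (0 : Fin (n + 2)) 1 * swap l.succ.succ m.succ.succ) 1 = 0 := by
      rw [Equiv.Perm.mul_apply, swap_apply_of_ne_of_ne (hi1 l).symm (hi1 m).symm, swap_apply_right]
    have e2 : (swap (0 : Fin (n + 2)) 1 * swap l.succ.succ m.succ.succ) i.succ.succ = i.succ.succ := by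
      rw [Equiv.Perm.mul_apply, swap_apply_of_ne_of_ne (hij i l hli.symm) (hij i m hmi.symm),
        swap_apply_of_ne_of_ne (hi0 i) (hi1 i)]
    have htt : t * t = 1 := by
      apply Subtype.ext
      show swap (0 : Fin (n + 2)) 1 * swap l.succ.succ m.succ.succ *
        (swap (0 : Fin (n + 2)) 1 * swap l.succ.succ m.succ.succ) = 1
      have h2 : swap (0 : Fin (n + 2)) 1 * swap l.succ.succ m.succ.succ * (swap (0 : Fin (n + 2)) 1)⁻¹ =
          swap l.succ.succ m.succ.succ := by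
        rw [← Equiv.swap_apply_apply, swap_apply_of_ne_of_ne (hi0 l) (hi1 l),
          swap_apply_of_ne_of_ne (hi0 m) (hi1 m)]
      rw [swap_inv] at h2
      rw [← mul_assoc, h2, swap_mul_self]
    obtain ⟨T, hT, hTT⟩ := l1 t htt
    obtain ⟨x, hx⟩ := hs ⟨_, hev 0 1 1 i.succ.succ h01 (hi1 i).symm⟩
    have hconj : ψ T * ψ x * (ψ T)⁻¹ = (ψ x)⁻¹ := by
      rw [hT, hx]
      apply Subtype.ext
      show swap (0 : Fin (n + 2)) 1 * swap l.succ.succ m.succ.succ *
        (swap 0 1 * swap 1 i.succ.succ) * (swap (0 : Fin (n + 2)) 1 * swap l.succ.succ m.succ.succ)⁻¹ =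
        (swap 0 1 * swap 1 i.succ.succ)⁻¹
      rw [conj_cyc, e0, e1, e2, inv_cyc (hi0 i) (hi1 i)]
    obtain ⟨w, hw, hw2⟩ := l2 x T hTT hconj
    refine ⟨x * w, T, ?_, hTT, hw2⟩
    rw [map_mul, MonoidHom.mem_ker.1 hw, mul_one, hx]
  choose x T hx hTT hTx using hE
  refine ⟨x, hx, ?_, ?_⟩
  · intro i
    refine l3 (x i) (T i) (hTx i) ?_
    apply Subtype.ext
    show ((ψ (x i) : alternatingGroup (Fin (n + 2))) : Perm (Fin (n + 2))) ^ 3 = 1
    rw [hx i, ← (hc3 i).orderOf]
    exact pow_orderOf_eq_one _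
  · intro i j hne
    -- the conjugating element
    obtain ⟨g, hg⟩ := hs ⟨_, hev 0 1 i.succ.succ j.succ.succ h01 (hij i j hne)⟩
    have conj : ∀ (i j : Fin n) (g : G), i ≠ j →
        ((ψ g : alternatingGroup (Fin (n + 2))) : Perm (Fin (n + 2))) =
          swap 0 1 * swap i.succ.succ j.succ.succ → g * x i * g⁻¹ = (x j)⁻¹ := by
      intro i j g hne hg
      have e0 : (swap (0 : Fin (n + 2)) 1 * swap i.succ.succ j.succ.succ) 0 = 1 := by
        rw [Equiv.Perm.mul_apply, swap_apply_of_ne_of_ne (hi0 i).symm (hi0 j).symm, swap_apply_left]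
      have e1 : (swap (0 : Fin (n + 2)) 1 * swap i.succ.succ j.succ.succ) 1 = 0 := by
        rw [Equiv.Perm.mul_apply, swap_apply_of_ne_of_ne (hi1 i).symm (hi1 j).symm, swap_apply_right]
      have e2 : (swap (0 : Fin (n + 2)) 1 * swap i.succ.succ j.succ.succ) i.succ.succ =
          j.succ.succ := by
        rw [Equiv.Perm.mul_apply, swap_apply_left, swap_apply_of_ne_of_ne (hi0 j) (hi1 j)]
      have hψ : ψ (g * x i * g⁻¹) = ψ (x j)⁻¹ := by
        apply Subtype.ext
        rw [map_mul, map_mul, map_inv, map_inv]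
        show ((ψ g : alternatingGroup (Fin (n + 2))) : Perm (Fin (n + 2))) *
          ((ψ (x i) : alternatingGroup (Fin (n + 2))) : Perm (Fin (n + 2))) *
          ((ψ g : alternatingGroup (Fin (n + 2))) : Perm (Fin (n + 2)))⁻¹ =
          ((ψ (x j) : alternatingGroup (Fin (n + 2))) : Perm (Fin (n + 2)))⁻¹
        rw [hg, hx i, hx j, conj_cyc, e0, e1, e2, inv_cyc (hi0 j) (hi1 j)]
      refine uniq ψ hCEN hLIF hs hk ho hD (g * x i * g⁻¹) (x j)⁻¹ (g * T i * g⁻¹) (T j) ?_ ?_ ?_ hψ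
      · rw [hψ, map_inv]
        show (((ψ (x j) : alternatingGroup (Fin (n + 2))) : Perm (Fin (n + 2)))⁻¹).IsThreeCycle
        rw [hx j]
        exact (hc3 j).inv
      · calc g * T i * g⁻¹ * (g * x i * g⁻¹) * (g * T i * g⁻¹)⁻¹ = g * (T i * x i * (T i)⁻¹) * g⁻¹ := by
              group
          _ = (g * x i * g⁻¹)⁻¹ := by rw [hTx i]; group
      · calc T j * (x j)⁻¹ * (T j)⁻¹ = (T j * x j * (T j)⁻¹)⁻¹ := by group
          _ = (x j)⁻¹⁻¹ := by rw [hTx j]
    have hgc : ((ψ g : alternatingGroup (Fin (n + 2))) : Perm (Fin (n + 2))) =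
        swap 0 1 * swap i.succ.succ j.succ.succ := by rw [hg]
    have k1 := conj i j g hne hgc
    have k2 := conj j i g hne.symm (by rw [hgc, swap_comm i.succ.succ j.succ.succ])
    have hz : (x i * x j) ^ 2 ∈ ψ.ker := by
      rw [MonoidHom.mem_ker]
      apply Subtype.ext
      rw [map_pow, map_mul]
      show (((ψ (x i) : alternatingGroup (Fin (n + 2))) : Perm (Fin (n + 2))) *
        ((ψ (x j) : alternatingGroup (Fin (n + 2))) : Perm (Fin (n + 2)))) ^ 2 = 1
      rw [hx i, hx j]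
      exact prod_cyc (hi0 i) (hi1 i) (hi0 j) h01 (hij i j hne)
    have hzc : g * (x i * x j) ^ 2 = (x i * x j) ^ 2 * g := Subgroup.mem_center_iff.1 (hk hz) g
    have e1 : g * (x i * x j) ^ 2 * g⁻¹ = ((x i * x j) ^ 2)⁻¹ := by
      calc g * (x i * x j) ^ 2 * g⁻¹ = ((g * x i * g⁻¹) * (g * x j * g⁻¹)) ^ 2 := by
            rw [pow_two, pow_two]; group
        _ = ((x i * x j) ^ 2)⁻¹ := by
            rw [k1, k2, ← mul_inv_rev, inv_pow]
    have e2 : (x i * x j) ^ 2 = ((x i * x j) ^ 2)⁻¹ := by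
      rw [← e1, hzc]; group
    refine l4 _ hz ?_
    nth_rw 1 [e2]
    exact inv_mul_cancel _

end Pool.Agent.Helper92.ML
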