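import Pool.Agent.Helper70.ML.St2

/-!
# Project ML (MP_a2f62e_al), module TOR: invariance under the diagonal matrices
-/

set_option autoImplicit false

namespace Pool.Agent.Helper92.ML

open Pool.Agent.Helper70.ML Pool.Agent.Helper75.MX

/-! ## Averages over a subgroup -/

theorem avg_inv {G : Type} [Group G] [Finite G] (A : Subgroup G) (h : G → ℝ) (a s t : G)
    (ha : a ∈ A) (ht : t = a * s) (hc : ∀ x ∈ A, s * x = x * s) (hs : L s h = h) :
    L t (∑ᶠ x ∈ (A : Set G), L x h) = ∑ᶠ x ∈ (A : Set G), L x h := by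
  have h1 := AddMonoidHom.map_finsum_mem (s := (A : Set G)) (fun x => L x h)
    ({ toFun := L t, map_zero' := L_zero t, map_add' := L_add t } : (G → ℝ) →+ (G → ℝ))
    (Set.toFinite _)
  have h2 : L t (∑ᶠ x ∈ (A : Set G), L x h) = ∑ᶠ x ∈ (A : Set G), L t (L x h) := h1
  rw [h2]
  refine finsum_mem_eq_of_bijOn (fun x => a * x) ?_ ?_
  · refine ⟨fun x hx => A.mul_mem ha hx, fun x _ y _ hxy => mul_left_cancel hxy, ?_⟩
    intro y hy
    exact ⟨a⁻¹ * y, A.mul_mem (A.inv_mem ha) hy, by simp⟩
  · intro x hx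
    rw [← Pool.Agent.Helper75.MX.L_mul, ht, mul_assoc, hc x hx, ← mul_assoc,
      Pool.Agent.Helper75.MX.L_mul, hs]

section mat

variable {n : ℕ} {F : Type} [Field F]

/-- entries `u` at `p`, `u⁻¹` at `r` -/
def ev (p r : Fin n) (u : Fˣ) : Fin n → F := fun c =>
  (if c = p then (u : F) else 1) * (if c = r then ((u⁻¹ : Fˣ) : F) else 1)

theorem prod_ev (p r : Fin n) (u : Fˣ) : ∏ c, ev p r u c = 1 := by
  unfold ev
  rw [Finset.prod_mul_distrib, Finset.prod_ite_eq', Finset.prod_ite_eq']
  simp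

/-- diagonal matrix -/
def dd (d : Fin n → F) (h : ∏ c, d c = 1) : SLn n F :=
  ⟨Matrix.diagonal d, by rw [Matrix.det_diagonal, h]⟩

theorem dd_mul (d d' : Fin n → F) (h : ∏ c, d c = 1) (h' : ∏ c, d' c = 1)
    (h'' : ∏ c, (d c * d' c) = 1) : dd d h * dd d' h' = dd (fun c => d c * d' c) h'' := by
  apply Subtype.ext
  exact Matrix.diagonal_mul_diagonal d d'

theorem dd_comm (d d' : Fin n → F) (h : ∏ c, d c = 1) (h' : ∏ c, d' c = 1) :
    dd d h * dd d' h' = dd d' h' * dd d h := by
  apply Subtype.ext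
  show Matrix.diagonal d * Matrix.diagonal d' = Matrix.diagonal d' * Matrix.diagonal d
  rw [Matrix.diagonal_mul_diagonal, Matrix.diagonal_mul_diagonal]
  congr 1
  funext c
  exact mul_comm _ _

/-- the one-parameter group -/
def ph (p r : Fin n) : Fˣ →* SLn n F where
  toFun u := dd (ev p r u) (prod_ev p r u)
  map_one' := by
    apply Subtype.ext
    show Matrix.diagonal (ev p r 1) = 1
    rw [← Matrix.diagonal_one]
    congr 1
    funext c
    simp [ev]
  map_mul' u v := by
    apply Subtype.ext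
    show Matrix.diagonal (ev p r (u * v)) = Matrix.diagonal (ev p r u) * Matrix.diagonal (ev p r v)
    rw [Matrix.diagonal_mul_diagonal]
    congr 1
    funext c
    unfold ev
    rw [mul_inv, Units.val_mul, Units.val_mul]
    split_ifs <;> ring

theorem ph_inj {p r : Fin n} (h : p ≠ r) : Function.Injective (ph (F := F) p r) := by
  intro u v huv
  have h1 : Matrix.diagonal (ev p r u) = Matrix.diagonal (ev p r v) := congrArg Subtype.val huv
  have h2 := congrFun (Matrix.diagonal_injective h1) p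
  unfold ev at h2
  simp only [if_true, if_neg h, mul_one] at h2
  exact Units.ext h2

/-- signs -/
def sg (r : Fin n) : Fin n → F := fun b => if b = r then -1 else 1

/-- monomial matrix `e_p ↦ e_r`, `e_r ↦ -e_p` -/
def W (p r : Fin n) : Matrix (Fin n) (Fin n) F := (Matrix.diagonal (sg r)).submatrix (Equiv.swap p r) id

theorem W_apply (p r a b : Fin n) : (W p r : Matrix (Fin n) (Fin n) F) a b =
    if Equiv.swap p r a = b then sg r b else 0 := by
  unfold W
  rw [Matrix.submatrix_apply, Matrix.diagonal_apply]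
  show (if Equiv.swap p r a = b then sg r (Equiv.swap p r a) else 0) = _
  split_ifs with h
  · rw [h]
  · rfl

theorem W_det {p r : Fin n} (h : p ≠ r) : (W p r : Matrix (Fin n) (Fin n) F).det = 1 := by
  unfold W
  rw [Matrix.det_permute, Matrix.det_diagonal, Equiv.Perm.sign_swap h]
  unfold sg
  rw [Finset.prod_ite_eq']
  simp

/-- in the group -/
def ww (p r : Fin n) (h : p ≠ r) : SLn n F := ⟨W p r, W_det h⟩

theorem ww_dd {p r : Fin n} (hpr : p ≠ r) (d : Fin n → F) (h : ∏ c, d c = 1)
    (h' : ∏ c, d (Equiv.swap p r c) = 1) :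
    ww p r hpr * dd (fun c => d (Equiv.swap p r c)) h' = dd d h * ww p r hpr := by
  apply Subtype.ext
  show W p r * Matrix.diagonal (fun c => d (Equiv.swap p r c)) = Matrix.diagonal d * W p r
  ext a b
  rw [Matrix.mul_diagonal, Matrix.diagonal_mul, W_apply]
  split_ifs with hab
  · rw [← hab, Equiv.swap_apply_self, mul_comm]
  · simp

theorem ww_sq {p r : Fin n} (hpr : p ≠ r) : ww p r hpr * ww p r hpr = ph (F := F) p r (-1) := by
  apply Subtype.ext
  show W p r * W p r = Matrix.diagonal (ev p r (-1))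
  ext a b
  rw [Matrix.mul_apply, Finset.sum_eq_single (Equiv.swap p r a)]
  · rw [W_apply, W_apply, if_pos rfl, Equiv.swap_apply_self, Matrix.diagonal_apply]
    by_cases hab : a = b
    · rw [if_pos hab, if_pos hab, ← hab]
      unfold sg ev
      by_cases hap : a = p
      · subst hap
        rw [Equiv.swap_apply_left]
        simp [hpr]
      · by_cases har : a = r
        · subst har
          rw [Equiv.swap_apply_right]
          simp [hpr, hap]
        · rw [Equiv.swap_apply_of_ne_of_ne hap har]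
          simp [hap, har]
    · rw [if_neg hab, if_neg hab, mul_zero]
  · intro c _ hc
    rw [W_apply, if_neg (fun h => hc h.symm), zero_mul]
  · intro h
    exact absurd (Finset.mem_univ _) h

theorem ww_not_mem {p r : Fin n} (hpr : p ≠ r) : ww (F := F) p r hpr ∉ (ph (F := F) p r).range := by
  rintro ⟨u, hu⟩
  have h1 : Matrix.diagonal (ev p r u) = W p r := congrArg Subtype.val hu
  have h2 := congrFun (congrFun h1 r) p
  rw [Matrix.diagonal_apply, if_neg hpr.symm, W_apply, Equiv.swap_apply_right, if_pos rfl] at h2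
  unfold sg at h2
  rw [if_neg hpr] at h2
  exact zero_ne_one h2

/-- diagonal elements -/
theorem exists_dd {g : SLn n F} (h : InH 1 g) : ∃ h' : ∏ c, g.1 c c = 1, g = dd (fun c => g.1 c c) h' := by
  have h1 : g.1 = Matrix.diagonal (fun c => g.1 c c) := by
    ext a b
    rw [Matrix.diagonal_apply]
    split_ifs with hab
    · rw [hab]
    · apply h a b hab
      by_contra hcon
      push Not at hcon
      apply hab
      apply Fin.ext
      omega
  have h2 : ∏ c, g.1 c c = 1 := by
    have h3 := g.2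
    rw [h1, Matrix.det_diagonal] at h3
    exact h3
  exact ⟨h2, Subtype.ext h1⟩

theorem inH_dd (d : Fin n → F) (h : ∏ c, d c = 1) : InH 1 (dd d h) := by
  intro a b hab _
  exact Matrix.diagonal_apply_ne _ hab

/-- diagonal matrices with entries `1` at the places `> i` -/
def Ti (i : ℕ) (g : SLn n F) : Prop := InH 1 g ∧ ∀ a : Fin n, i < (a : ℕ) → g.1 a a = 1

theorem step (hAVG : StAVG) (hDIH : StDIH) [Finite F] (i : ℕ) (hi : i + 1 < n) (kd : ℕ)
    (hkd : ∀ k, 2 ^ k ≤ (2 * (Nat.card F - 1)) ^ 6 → k ≤ kd) (f : SLn n F → ℝ)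
    (hf : ∀ g, Ti i g → L g f = f) :
    ∃ f' : SLn n F → ℝ, Reach kd f f' ∧ ∀ g, Ti (i + 1) g → L g f' = f' := by
  set p : Fin n := ⟨i, by omega⟩ with hp
  set r : Fin n := ⟨i + 1, hi⟩ with hr
  have hpr : p ≠ r := by
    intro h
    have := congrArg Fin.val h
    simp [hp, hr] at this
  set A : Subgroup (SLn n F) := (ph (F := F) p r).range with hA
  have hAcard : Nat.card A = Nat.card F - 1 := by
    rw [← Nat.card_units F]
    exact (Nat.card_congr (MonoidHom.ofInjective (ph_inj (F := F) hpr)).toEquiv).symm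
  have hwA := ww_not_mem (F := F) hpr
  obtain ⟨K, k, hK, hmix, hk⟩ := hDIH (SLn n F) A (ww p r hpr)
    (by
      rintro x ⟨u, rfl⟩ y ⟨v, rfl⟩
      exact dd_comm _ _ (prod_ev p r u) (prod_ev p r v)) hwA
    (by rw [ww_sq]; exact ⟨-1, rfl⟩)
    (by
      rw [show (4 : ℕ) = 2 + 2 by norm_num, pow_add, pow_two, ww_sq, ← map_mul]
      simp)
    (by
      rintro t ⟨u, rfl⟩
      rw [← map_inv, mul_inv_eq_iff_eq_mul]
      have h1 := ww_dd hpr (ev p r u⁻¹) (prod_ev p r u⁻¹)
        (by rw [Equiv.prod_comp (Equiv.swap p r) (ev p r u⁻¹)]; exact prod_ev p r u⁻¹)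
      have h2 : (fun c => ev p r u⁻¹ (Equiv.swap p r c)) = ev p r u := by
        funext c
        by_cases hcp : c = p
        · subst hcp
          rw [Equiv.swap_apply_left]
          simp [ev, hpr, hpr.symm]
        · by_cases hcr : c = r
          · rw [hcr, Equiv.swap_apply_right]
            simp [ev, hpr, hpr.symm]
          · rw [Equiv.swap_apply_of_ne_of_ne hcp hcr]
            simp [ev, hcp, hcr]
      simp only [h2] at h1
      exact h1)
  rw [hAcard] at hk
  refine ⟨(1 / (Nat.card K : ℝ)) • ∑ᶠ x : K, L (x : SLn n F) f,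
    (hAVG (SLn n F) K k hmix f).mono (hkd k hk), ?_⟩
  -- the sum splits
  have hsplit : ∑ᶠ x : K, L (x : SLn n F) f = (∑ᶠ x ∈ (A : Set (SLn n F)), L x f) +
      ∑ᶠ x ∈ (A : Set (SLn n F)), L x (L (ww p r hpr) f) := by
    have e1 : ∑ᶠ x : K, L (x : SLn n F) f = ∑ᶠ x ∈ (K : Set (SLn n F)), L x f :=
      finsum_set_coe_eq_finsum_mem (f := fun x => L x f) (K : Set (SLn n F))
    have e2 : (K : Set (SLn n F)) = (A : Set (SLn n F)) ∪ (fun t => t * ww p r hpr) '' (A : Set (SLn n F)) := by
      ext g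
      rw [SetLike.mem_coe, hK g]
      constructor
      · rintro (h | ⟨t, ht, rfl⟩)
        · exact Or.inl h
        · exact Or.inr ⟨t, ht, rfl⟩
      · rintro (h | ⟨t, ht, rfl⟩)
        · exact Or.inl h
        · exact Or.inr ⟨t, ht, rfl⟩
    have e3 : Disjoint (A : Set (SLn n F)) ((fun t => t * ww p r hpr) '' (A : Set (SLn n F))) := by
      rw [Set.disjoint_left]
      rintro x hx ⟨t, ht, rfl⟩
      apply hwA
      have h1 := A.mul_mem (A.inv_mem ht) hx
      have h2 : t⁻¹ * (t * ww p r hpr) = ww p r hpr := by group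
      have h3 : t⁻¹ * (fun t => t * ww p r hpr) t = ww p r hpr := h2
      rwa [h3] at h1
    rw [e1, e2, finsum_mem_union e3 (Set.toFinite _) (Set.toFinite _),
      finsum_mem_image (fun x _ y _ hxy => mul_right_cancel hxy)]
    congr 1
    apply finsum_mem_congr rfl
    intro x _
    rw [Pool.Agent.Helper75.MX.L_mul]
  rw [hsplit]
  rintro t ⟨htH, ht1⟩
  obtain ⟨hd1, htd⟩ := exists_dd htH
  set d : Fin n → F := fun c => t.1 c c with hd
  have hd0 : ∀ c, d c ≠ 0 := by
    intro c hc
    have h0 : ∏ c, d c = 0 := Finset.prod_eq_zero (Finset.mem_univ c) hc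
    rw [h0] at hd1
    exact zero_ne_one hd1
  have hd2 : ∀ c : Fin n, i + 1 < (c : ℕ) → d c = 1 := ht1
  -- general decomposition
  have hdec : ∀ u : Fˣ, ∃ hs : ∏ c, (ev p r u⁻¹ c * d c) = 1,
      t = ph p r u * dd (fun c => ev p r u⁻¹ c * d c) hs := by
    intro u
    have hs : ∏ c, (ev p r u⁻¹ c * d c) = 1 := by
      rw [Finset.prod_mul_distrib, prod_ev, hd1, one_mul]
    refine ⟨hs, ?_⟩
    rw [← dd_mul _ _ (prod_ev p r u⁻¹) hd1 hs]
    have h1 : dd (ev p r u⁻¹) (prod_ev p r u⁻¹) = (ph p r u)⁻¹ := by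
      rw [← map_inv]; rfl
    rw [h1, ← htd]
    group
  have hfar : ∀ (u : Fˣ) (c : Fin n), i + 1 < (c : ℕ) → ev p r u c * d c = 1 := by
    intro u c hc
    have h1 : c ≠ p := by
      intro h
      rw [h, hp] at hc
      simp at hc
    have h2 : c ≠ r := by
      intro h
      rw [h, hr] at hc
      simp at hc
    rw [hd2 c hc]
    simp [ev, h1, h2]
  have hcase : ∀ c : Fin n, i < (c : ℕ) → c = r ∨ i + 1 < (c : ℕ) := by
    intro c hc
    by_cases h : (c : ℕ) = i + 1
    · left; exact Fin.ext h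
    · right; omega
  rw [L_smul, L_add]
  congr 2
  · -- first half
    obtain ⟨hs, hts⟩ := hdec (Units.mk0 (d r) (hd0 r))⁻¹
    refine avg_inv A f _ _ t ⟨_, rfl⟩ hts ?_ ?_
    · rintro x ⟨v, rfl⟩
      exact dd_comm _ _ _ (prod_ev p r v)
    · apply hf
      refine ⟨inH_dd _ _, ?_⟩
      intro c hc
      show Matrix.diagonal _ c c = 1
      rw [Matrix.diagonal_apply_eq]
      rcases hcase c hc with h | h
      · rw [h]
        have := hd0 r
        simp [ev, hpr.symm, this]
      · exact hfar _ c h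
  · -- second half
    obtain ⟨hs, hts⟩ := hdec (Units.mk0 (d p) (hd0 p))
    refine avg_inv A _ _ _ t ⟨_, rfl⟩ hts ?_ ?_
    · rintro x ⟨v, rfl⟩
      exact dd_comm _ _ _ (prod_ev p r v)
    · set e : Fin n → F := fun c => ev p r (Units.mk0 (d p) (hd0 p))⁻¹ c * d c with he
      have he' : ∏ c, e (Equiv.swap p r c) = 1 := by
        rw [Equiv.prod_comp (Equiv.swap p r) e]; exact hs
      rw [← Pool.Agent.Helper75.MX.L_mul, ← ww_dd hpr e hs he', Pool.Agent.Helper75.MX.L_mul, hf]
      refine ⟨inH_dd _ _, ?_⟩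
      intro c hc
      show Matrix.diagonal _ c c = 1
      rw [Matrix.diagonal_apply_eq]
      rcases hcase c hc with h | h
      · rw [h, Equiv.swap_apply_right, he]
        have := hd0 p
        simp [ev, hpr, this]
      · have h1 : c ≠ p := by
          intro h1
          rw [h1, hp] at h
          simp at h
        have h2 : c ≠ r := by
          intro h2
          rw [h2, hr] at h
          simp at h
        rw [Equiv.swap_apply_of_ne_of_ne h1 h2]
        exact hfar _ c h

end mat

theorem hTOR (hAVG : StAVG) (hDIH : StDIH) : StTOR := by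
  intro n F _ _ hn
  have hq : 1 < Nat.card F := Finite.one_lt_card
  have hpos : (2 * (Nat.card F - 1)) ^ 6 ≠ 0 := by
    apply pow_ne_zero
    omega
  refine ⟨Nat.log 2 ((2 * (Nat.card F - 1)) ^ 6), Nat.pow_log_le_self 2 hpos, ?_⟩
  intro f
  set kd := Nat.log 2 ((2 * (Nat.card F - 1)) ^ 6) with hkd
  have hk : ∀ k, 2 ^ k ≤ (2 * (Nat.card F - 1)) ^ 6 → k ≤ kd :=
    fun k h => Nat.le_log_of_pow_le (by norm_num) h
  have main : ∀ i : ℕ, i < n → ∃ f' : SLn n F → ℝ, Reach (i * kd) f f' ∧
      ∀ g, Ti i g → L g f' = f' := by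
    intro i
    induction i with
    | zero =>
      intro h0
      refine ⟨f, by simpa using Reach.refl f, ?_⟩
      rintro g ⟨hg, hg1⟩
      obtain ⟨h1, h2⟩ := exists_dd hg
      have h3 : g = 1 := by
        rw [h2]
        apply Subtype.ext
        show Matrix.diagonal (fun c => g.1 c c) = 1
        rw [← Matrix.diagonal_one]
        congr 1
        funext c
        by_cases hc : c = ⟨0, h0⟩
        · rw [Finset.prod_eq_single (⟨0, h0⟩ : Fin n)] at h1
          · rw [hc]; exact h1
          · intro b _ hb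
            apply hg1
            rw [Nat.pos_iff_ne_zero]
            intro hb0
            exact hb (Fin.ext hb0)
          · intro h
            exact absurd (Finset.mem_univ _) h
        · apply hg1
          rw [Nat.pos_iff_ne_zero]
          intro hb0
          exact hc (Fin.ext hb0)
      rw [h3, L_one]
    | succ i ih =>
      intro hi
      obtain ⟨f₁, h1, h2⟩ := ih (by omega)
      obtain ⟨f₂, h3, h4⟩ := step hAVG hDIH i hi kd hk f₁ h2
      refine ⟨f₂, ?_, h4⟩
      rw [Nat.succ_mul]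
      exact h1.trans h3
  obtain ⟨f', h1, h2⟩ := main (n - 1) (by omega)
  refine ⟨f', h1, ?_⟩
  intro g hg
  apply h2
  refine ⟨hg, ?_⟩
  intro a ha
  have := a.2
  omega

end Pool.Agent.Helper92.ML
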